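import Pool.Agent.H828.PA.Base



namespace Pool.Agent.H828.PA

open scoped TensorProduct

variable {𝕜 : Type} [Field 𝕜]

open Kronecker in
theorem isCoef_mul (u : UP 𝕜) {G : Type} [Group G] [TopologicalSpace G] (f g : G → 𝕜)
    (hf : IsCoef u f) (hg : IsCoef u g) : IsCoef u (f * g) := by
  classical
  obtain ⟨ι, hι, hd, M, a, b, hM, hf⟩ := hf
  obtain ⟨κ, hκ, hd', N, c, d, hN, hg⟩ := hg
  refine ⟨ι × κ, inferInstance, inferInstance, fun p =>
    { toFun := fun x => (M p x) ⊗ₖ (N p x)
      map_one' := by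
        rw [map_one, map_one, Matrix.one_kronecker_one]
      map_mul' := fun x y => by
        rw [map_mul, map_mul, Matrix.mul_kronecker_mul] },
    fun p i => a p i.1 * c p i.2, fun p i => b p i.1 * d p i.2, ?_, ?_⟩
  · intro p
    exact ((hM p).prodMk (hN p)).comp (fun A : Matrix ι ι (FF (u.q p)) × Matrix κ κ (FF (u.q p)) => A.1 ⊗ₖ A.2)
  · intro x
    rw [Pi.mul_apply, hf x, hg x, ← map_mul]
    congr 1
    funext p
    simp only [Pi.mul_apply, dotProduct, Matrix.mulVec, MonoidHom.coe_mk, OneHom.coe_mk,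
      Matrix.kroneckerMap_apply, Fintype.sum_prod_type, Finset.sum_mul_sum]
    refine Finset.sum_congr rfl fun i _ => Finset.sum_congr rfl fun k _ => ?_
    have : (∑ i' : ι, ∑ k' : κ, M p x i i' * N p x k k' * (b p i' * d p k'))
        = (∑ i' : ι, M p x i i' * b p i') * (∑ k' : κ, N p x k k' * d p k') := by
      rw [Finset.sum_mul_sum]
      refine Finset.sum_congr rfl fun i' _ => Finset.sum_congr rfl fun k' _ => ?_
      ring
    rw [this]
    ring

theorem isCoef_inv (u : UP 𝕜) {G : Type} [Group G] [TopologicalSpace G] [IsTopologicalGroup G]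
    (f : G → 𝕜) (hf : IsCoef u f) : IsCoef u (fun x => f x⁻¹) := by
  obtain ⟨ι, hι, hd, M, a, b, hM, hf⟩ := hf
  refine ⟨ι, hι, hd, fun p =>
    { toFun := fun x => (M p x⁻¹).transpose
      map_one' := by
        rw [inv_one, map_one, Matrix.transpose_one]
      map_mul' := fun x y => by
        rw [mul_inv_rev, map_mul, Matrix.transpose_mul] }, b, a, ?_, ?_⟩
  · intro p
    have h1 : IsLocallyConstant (fun x : G => M p x⁻¹) :=
      (hM p).comp_continuous continuous_inv
    exact h1.comp (fun A : Matrix ι ι (FF (u.q p)) => A.transpose)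
  · intro x
    show f x⁻¹ = _
    rw [hf x⁻¹]
    congr 1
    funext p
    simp only [MonoidHom.coe_mk, OneHom.coe_mk]
    rw [Matrix.mulVec_transpose, Matrix.dotProduct_mulVec, dotProduct_comm]

end Pool.Agent.H828.PA
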