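import Mathlib

set_option autoImplicit false

/-! # Proalgebraic and profinite completions of groups (definitions)

Pro-affine algebraic groups over a field `𝕜` are represented by commutative Hopf algebras over `𝕜`
(the coordinate ring), affine algebraic groups by the commutative Hopf algebras that are finitely
generated as algebras; a morphism of (pro-)algebraic groups `G → G'` is a bialgebra homomorphism
`O(G') → O(G)`, and the group `G(𝕜)` of points is the set of algebra homomorphisms `O(G) → 𝕜` with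
the product dual to the comultiplication. -/

namespace Pool.Agent.H828.PA

open CategoryTheory

section Points

variable (𝕜 : Type) [Field 𝕜] (H : Type) [CommRing H] [HopfAlgebra 𝕜 H]

/-- The `𝕜`-points of the (pro-)affine group with coordinate ring `H`. -/
abbrev Pt : Type := H →ₐ[𝕜] 𝕜

/-- The neutral point: the counit. -/
noncomputable def ptOne : Pt 𝕜 H := Bialgebra.counitAlgHom 𝕜 H

variable {𝕜 H}

/-- The product of two points: `H → H ⊗ H → 𝕜`. -/
noncomputable def ptMul (x y : Pt 𝕜 H) : Pt 𝕜 H :=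
  (Algebra.TensorProduct.lift x y (fun _ _ => Commute.all _ _)).comp (Bialgebra.comulAlgHom 𝕜 H)

/-- `ρ : Γ → G(𝕜)` is a group homomorphism. -/
def IsPtHom {Γ : Type} [Group Γ] (ρ : Γ → Pt 𝕜 H) : Prop :=
  ρ 1 = ptOne 𝕜 H ∧ ∀ g h : Γ, ρ (g * h) = ptMul (ρ g) (ρ h)

end Points

/-- The pro-affine algebraic group with coordinate ring `H`, together with `i : Γ → G(𝕜)`, is a
proalgebraic completion over `𝕜` of `Γ`: `i` is a homomorphism, and for every affine algebraic
group `G'` over `𝕜` (coordinate ring `K`) and every homomorphism `ρ : Γ → G'(𝕜)` there is a unique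
morphism of proalgebraic groups to `G'` through which `ρ` factors. -/
structure IsProalgebraicCompletion {𝕜 : Type} [Field 𝕜] (Γ : Type) [Group Γ] (H : Type)
    [CommRing H] [HopfAlgebra 𝕜 H] (i : Γ → Pt 𝕜 H) : Prop where
  hom : IsPtHom i
  univ : ∀ (K : Type) [CommRing K] [HopfAlgebra 𝕜 K] [Algebra.FiniteType 𝕜 K] (ρ : Γ → Pt 𝕜 K),
    IsPtHom ρ → ∃! φ : K →ₐc[𝕜] H, ∀ g : Γ, (i g).comp (φ : K →ₐ[𝕜] H) = ρ g

/-- `A(Γ) ≅ A(Λ)` as proalgebraic groups over `𝕜`. -/
def ProalgebraicallyIsomorphic (𝕜 : Type) [Field 𝕜] (Γ Λ : Type) [Group Γ] [Group Λ] : Prop :=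
  ∃ (H : Type) (_ : CommRing H) (_ : HopfAlgebra 𝕜 H) (i : Γ → Pt 𝕜 H)
    (H' : Type) (_ : CommRing H') (_ : HopfAlgebra 𝕜 H') (i' : Λ → Pt 𝕜 H'),
    IsProalgebraicCompletion Γ H i ∧ IsProalgebraicCompletion Λ H' i' ∧ Nonempty (H ≃ₐc[𝕜] H')

/-- The profinite completion (Mathlib's limit of the finite quotients), a profinite group. -/
noncomputable abbrev Prof (Γ : Type) [Group Γ] : ProfiniteGrp :=
  ProfiniteGrp.ProfiniteCompletion.completion (GrpCat.of Γ)

/-- The profinite completions are isomorphic as topological groups. -/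
def ProfinitelyIsomorphic (Γ Λ : Type) [Group Γ] [Group Λ] : Prop :=
  Nonempty (Prof Γ ≃ₜ* Prof Λ)

/-- Profinite rigidity among finitely generated residually finite groups. -/
def ProfinitelyRigid (Λ : Type) [Group Λ] : Prop :=
  ∀ (Γ : Type) [Group Γ] [Group.FG Γ] [Group.ResiduallyFinite Γ],
    ProfinitelyIsomorphic Γ Λ → Nonempty (Γ ≃* Λ)

/-- Proalgebraic rigidity over `𝕜` among finitely generated residually finite groups. -/
def ProalgebraicallyRigid (𝕜 : Type) [Field 𝕜] (Λ : Type) [Group Λ] : Prop :=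
  ∀ (Γ : Type) [Group Γ] [Group.FG Γ] [Group.ResiduallyFinite Γ],
    ProalgebraicallyIsomorphic 𝕜 Γ Λ → Nonempty (Γ ≃* Λ)

end Pool.Agent.H828.PA
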