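import Pool.Agent.H828.PA.Base



namespace Pool.Agent.H828.PA

open scoped TensorProduct

variable {𝕜 : Type} [Field 𝕜]

/-- right translation of functions -/
def xrR (Γ : Type) [Group Γ] : Γ →* Module.End 𝕜 (Γ → 𝕜) where
  toFun δ :=
    { toFun := fun h γ => h (γ * δ)
      map_add' := fun _ _ => rfl
      map_smul' := fun _ _ => rfl }
  map_one' := by
    ext1 h
    funext γ
    simp
  map_mul' δ δ' := by
    ext1 h
    funext γ
    simp [mul_assoc]

theorem exists_rep {Γ : Type} [Group Γ] (f : Γ → 𝕜) (n : ℕ) (s t : Fin n → Γ → 𝕜)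
    (h : ∀ γ δ, f (γ * δ) = ∑ i, s i γ * t i δ) :
    ∃ (m : ℕ) (ρ : Γ →* Matrix (Fin m) (Fin m) 𝕜) (a b : Fin m → 𝕜),
      ∀ γ, f γ = dotProduct a ((ρ γ).mulVec b) := by
  classical
  let R := xrR (𝕜 := 𝕜) Γ
  have hR : ∀ δ h γ, R δ h γ = h (γ * δ) := fun _ _ _ => rfl
  let V : Submodule 𝕜 (Γ → 𝕜) := Submodule.span 𝕜 (Set.range fun δ => R δ f)
  have hVle : V ≤ Submodule.span 𝕜 (Set.range s) := by
    apply Submodule.span_le.2
    rintro _ ⟨δ, rfl⟩
    have e : R δ f = ∑ i, t i δ • s i := by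
      funext γ
      rw [hR, h, Finset.sum_apply]
      exact Finset.sum_congr rfl fun i _ => mul_comm _ _
    show R δ f ∈ _
    rw [e]
    exact Submodule.sum_mem _ fun i _ => Submodule.smul_mem _ _ (Submodule.subset_span ⟨i, rfl⟩)
  have : FiniteDimensional 𝕜 (Submodule.span 𝕜 (Set.range s)) :=
    FiniteDimensional.span_of_finite 𝕜 (Set.finite_range s)
  have : FiniteDimensional 𝕜 V := Submodule.finiteDimensional_of_le hVle
  have hinv : ∀ δ, ∀ v ∈ V, R δ v ∈ V := by
    intro δ v hv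
    induction hv using Submodule.span_induction with
    | mem x hx =>
      obtain ⟨δ', rfl⟩ := hx
      refine Submodule.subset_span ⟨δ * δ', ?_⟩
      show R (δ * δ') f = R δ (R δ' f)
      rw [map_mul]
      rfl
    | zero => rw [map_zero]; exact V.zero_mem
    | add x y _ _ hx hy => rw [map_add]; exact V.add_mem hx hy
    | smul a x _ hx => rw [map_smul]; exact V.smul_mem a hx
  let ρV : Γ →* Module.End 𝕜 V :=
    { toFun := fun δ => (R δ).restrict (hinv δ)
      map_one' := by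
        apply LinearMap.ext
        intro v
        apply Subtype.ext
        show R 1 v = v
        rw [map_one]
        rfl
      map_mul' := fun δ δ' => by
        apply LinearMap.ext
        intro v
        apply Subtype.ext
        show R (δ * δ') v = R δ (R δ' v)
        rw [map_mul]
        rfl }
  have hfV : f ∈ V := Submodule.subset_span ⟨1, by
    show R 1 f = f
    rw [map_one]
    rfl⟩
  let B := Module.finBasis 𝕜 V
  let ρ : Γ →* Matrix (Fin (Module.finrank 𝕜 V)) (Fin (Module.finrank 𝕜 V)) 𝕜 :=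
    ((LinearMap.toMatrixAlgEquiv B : Module.End 𝕜 V ≃ₐ[𝕜] _) : Module.End 𝕜 V →* _).comp ρV
  refine ⟨Module.finrank 𝕜 V, ρ, fun i => (B i : Γ → 𝕜) 1, B.repr ⟨f, hfV⟩, fun γ => ?_⟩
  have e1 : (ρ γ).mulVec (B.repr ⟨f, hfV⟩) = B.repr (ρV γ ⟨f, hfV⟩) := by
    show (LinearMap.toMatrixAlgEquiv B (ρV γ)).mulVec _ = _
    exact LinearMap.toMatrix_mulVec_repr B B (ρV γ) ⟨f, hfV⟩
  rw [e1]
  have e2 : ((ρV γ ⟨f, hfV⟩ : V) : Γ → 𝕜) 1 = f γ := by
    show f (1 * γ) = f γ
    rw [one_mul]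
  rw [← e2]
  conv_lhs => rw [← B.sum_repr (ρV γ ⟨f, hfV⟩)]
  rw [dotProduct]
  simp only [Submodule.coe_sum, Submodule.coe_smul, Finset.sum_apply, Pi.smul_apply, smul_eq_mul]
  exact Finset.sum_congr rfl fun i _ => mul_comm _ _

end Pool.Agent.H828.PA
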