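import Pool.Agent.H828.PA.TensorSep
import Pool.Agent.H828.PA.Defs

/-! # Hopf algebras of functions on a group -/

namespace Pool.Agent.H828.PA

open scoped TensorProduct

variable {𝕜 : Type} [Field 𝕜]

section FH

/-- the pairing of two algebra homomorphisms to `𝕜` -/
noncomputable def pr {A B : Type} [CommRing A] [Algebra 𝕜 A] [CommRing B] [Algebra 𝕜 B]
    (f : A →ₐ[𝕜] 𝕜) (g : B →ₐ[𝕜] 𝕜) : A ⊗[𝕜] B →ₐ[𝕜] 𝕜 :=
  Algebra.TensorProduct.lift f g (fun _ _ => Commute.all _ _)

@[simp] theorem pr_tmul {A B : Type} [CommRing A] [Algebra 𝕜 A] [CommRing B] [Algebra 𝕜 B]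
    (f : A →ₐ[𝕜] 𝕜) (g : B →ₐ[𝕜] 𝕜) (a : A) (b : B) : pr f g (a ⊗ₜ b) = f a * g b := by
  simp [pr]

theorem pr_eq {A B : Type} [CommRing A] [Algebra 𝕜 A] [CommRing B] [Algebra 𝕜 B]
    (f : A →ₐ[𝕜] 𝕜) (g : B →ₐ[𝕜] 𝕜) (z : A ⊗[𝕜] B) :
    TensorProduct.lid 𝕜 𝕜 (TensorProduct.map f.toLinearMap g.toLinearMap z) = pr f g z := by
  induction z using TensorProduct.induction_on with
  | zero => simp
  | tmul a b => simp
  | add a b ha hb => rw [map_add, map_add, ha, hb, map_add]

theorem pr_assoc {A B C : Type} [CommRing A] [Algebra 𝕜 A] [CommRing B] [Algebra 𝕜 B]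
    [CommRing C] [Algebra 𝕜 C]
    (f : A →ₐ[𝕜] 𝕜) (g : B →ₐ[𝕜] 𝕜) (k : C →ₐ[𝕜] 𝕜) (z : A ⊗[𝕜] B) (c : C) :
    pr f (pr g k) (Algebra.TensorProduct.assoc 𝕜 𝕜 𝕜 A B C (z ⊗ₜ c)) = pr f g z * k c := by
  induction z using TensorProduct.induction_on with
  | zero => simp
  | tmul a b => simp [mul_assoc]
  | add a b ha hb => rw [TensorProduct.add_tmul, map_add, map_add, ha, hb, map_add, add_mul]

theorem pr_sep {A B X Y : Type} [CommRing A] [Algebra 𝕜 A] [CommRing B] [Algebra 𝕜 B]
    (f : X → A →ₐ[𝕜] 𝕜) (g : Y → B →ₐ[𝕜] 𝕜) (hf : ∀ a, (∀ x, f x a = 0) → a = 0)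
    (hg : ∀ b, (∀ y, g y b = 0) → b = 0) (z : A ⊗[𝕜] B) (h : ∀ x y, pr (f x) (g y) z = 0) :
    z = 0 := by
  apply tensor_sep (Set.range fun x => (f x).toLinearMap) (Set.range fun y => (g y).toLinearMap)
  · intro v hv
    exact hf v fun x => hv _ ⟨x, rfl⟩
  · intro v hv
    exact hg v fun x => hv _ ⟨x, rfl⟩
  · rintro _ ⟨x, rfl⟩ _ ⟨y, rfl⟩
    rw [pr_eq, h x y]

theorem pr_ext {A B X Y : Type} [CommRing A] [Algebra 𝕜 A] [CommRing B] [Algebra 𝕜 B]
    (f : X → A →ₐ[𝕜] 𝕜) (g : Y → B →ₐ[𝕜] 𝕜) (hf : ∀ a, (∀ x, f x a = 0) → a = 0)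
    (hg : ∀ b, (∀ y, g y b = 0) → b = 0) (z z' : A ⊗[𝕜] B)
    (h : ∀ x y, pr (f x) (g y) z = pr (f x) (g y) z') : z = z' := by
  rw [← sub_eq_zero]
  apply pr_sep f g hf hg
  intro x y
  rw [map_sub, h, sub_self]

/-- a separating family of points indexed by a group, with comultiplication and antipode -/
structure IsFH {G A : Type} [Group G] [CommRing A] [Algebra 𝕜 A] (ev : G → A →ₐ[𝕜] 𝕜) : Prop where
  sep : ∀ a, (∀ x, ev x a = 0) → a = 0
  comul : ∀ a, ∃ z : A ⊗[𝕜] A, ∀ x y, pr (ev x) (ev y) z = ev (x * y) a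
  inv : ∀ a, ∃ b, ∀ x, ev x b = ev x⁻¹ a

variable {G A : Type} [Group G] [CommRing A] [Algebra 𝕜 A] {ev : G → A →ₐ[𝕜] 𝕜}

namespace IsFH

variable (h : IsFH ev)
include h

theorem ext1 {a b : A} (hab : ∀ x, ev x a = ev x b) : a = b := by
  rw [← sub_eq_zero]
  apply h.sep
  intro x
  rw [map_sub, hab, sub_self]

theorem ext2 {a b : A ⊗[𝕜] A} (hab : ∀ x y, pr (ev x) (ev y) a = pr (ev x) (ev y) b) : a = b :=
  pr_ext ev ev h.sep h.sep a b hab

theorem sep2 (a : A ⊗[𝕜] A) (hab : ∀ w : G × G, pr (ev w.1) (ev w.2) a = 0) : a = 0 :=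
  pr_sep ev ev h.sep h.sep a fun x y => hab (x, y)

theorem ext3 {a b : A ⊗[𝕜] (A ⊗[𝕜] A)}
    (hab : ∀ x y z, pr (ev x) (pr (ev y) (ev z)) a = pr (ev x) (pr (ev y) (ev z)) b) : a = b :=
  pr_ext ev (fun w : G × G => pr (ev w.1) (ev w.2)) h.sep h.sep2 a b
    fun x w => hab x w.1 w.2

/-- comultiplication -/
noncomputable def cm : A →ₐ[𝕜] A ⊗[𝕜] A where
  toFun a := (h.comul a).choose
  map_one' := h.ext2 fun x y => by rw [(h.comul _).choose_spec, map_one, map_one]
  map_mul' a b := h.ext2 fun x y => by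
    rw [(h.comul _).choose_spec, map_mul, map_mul, (h.comul _).choose_spec,
      (h.comul _).choose_spec]
  map_zero' := h.ext2 fun x y => by rw [(h.comul _).choose_spec, map_zero, map_zero]
  map_add' a b := h.ext2 fun x y => by
    rw [(h.comul _).choose_spec, map_add, map_add, (h.comul _).choose_spec,
      (h.comul _).choose_spec]
  commutes' c := h.ext2 fun x y => by
    rw [(h.comul _).choose_spec, AlgHom.commutes, AlgHom.commutes]

theorem cm_spec (a : A) (x y : G) : pr (ev x) (ev y) (h.cm a) = ev (x * y) a :=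
  (h.comul a).choose_spec x y

/-- antipode -/
noncomputable def ap : A →ₐ[𝕜] A where
  toFun a := (h.inv a).choose
  map_one' := h.ext1 fun x => by rw [(h.inv _).choose_spec, map_one, map_one]
  map_mul' a b := h.ext1 fun x => by
    rw [(h.inv _).choose_spec, map_mul, map_mul, (h.inv _).choose_spec,
      (h.inv _).choose_spec]
  map_zero' := h.ext1 fun x => by rw [(h.inv _).choose_spec, map_zero, map_zero]
  map_add' a b := h.ext1 fun x => by
    rw [(h.inv _).choose_spec, map_add, map_add, (h.inv _).choose_spec,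
      (h.inv _).choose_spec]
  commutes' c := h.ext1 fun x => by
    rw [(h.inv _).choose_spec, AlgHom.commutes, AlgHom.commutes]

theorem ap_spec (a : A) (x : G) : ev x (h.ap a) = ev x⁻¹ a :=
  (h.inv a).choose_spec x

/-- the bialgebra structure -/
@[reducible] noncomputable def bialg : Bialgebra 𝕜 A :=
  Bialgebra.ofAlgHom h.cm (ev 1)
    (by
      apply AlgHom.ext
      intro a
      apply h.ext3
      intro x y z
      have e1 : (pr (ev x) (pr (ev y) (ev z))).comp
          ((Algebra.TensorProduct.assoc 𝕜 𝕜 𝕜 A A A).toAlgHom.comp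
          (Algebra.TensorProduct.map h.cm (.id 𝕜 A))) = pr (ev (x * y)) (ev z) := by
        apply AlgHom.ext
        intro w
        induction w using TensorProduct.induction_on with
        | zero => simp
        | add a b ha hb => rw [map_add, ha, hb, map_add]
        | tmul b c =>
          have := pr_assoc (ev x) (ev y) (ev z) (h.cm b) c
          rw [cm_spec] at this
          simpa using this
      have e2 : (pr (ev x) (pr (ev y) (ev z))).comp
          (Algebra.TensorProduct.map (.id 𝕜 A) h.cm) = pr (ev x) (ev (y * z)) := by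
        apply Algebra.TensorProduct.ext
        · ext b
          simp
        · ext b
          simp [cm_spec]
      have e1' := DFunLike.congr_fun e1 (h.cm a)
      have e2' := DFunLike.congr_fun e2 (h.cm a)
      simp only [AlgHom.comp_apply] at e1' e2' ⊢
      rw [e1', e2', cm_spec, cm_spec, mul_assoc])
    (by
      apply AlgHom.ext
      intro a
      apply (Algebra.TensorProduct.lid 𝕜 A).injective
      apply h.ext1
      intro x
      have e : (ev x).comp ((Algebra.TensorProduct.lid 𝕜 A).toAlgHom.comp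
          (Algebra.TensorProduct.map (ev 1) (.id 𝕜 A))) = pr (ev 1) (ev x) := by
        apply Algebra.TensorProduct.ext
        · ext b
          simp
        · ext b
          simp
      have e' := DFunLike.congr_fun e (h.cm a)
      rw [cm_spec, one_mul] at e'
      simpa using e')
    (by
      apply AlgHom.ext
      intro a
      apply (Algebra.TensorProduct.rid 𝕜 𝕜 A).injective
      apply h.ext1
      intro x
      have e : (ev x).comp ((Algebra.TensorProduct.rid 𝕜 𝕜 A).toAlgHom.comp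
          (Algebra.TensorProduct.map (.id 𝕜 A) (ev 1))) = pr (ev x) (ev 1) := by
        apply Algebra.TensorProduct.ext
        · ext b
          simp
        · ext b
          simp
      have e' := DFunLike.congr_fun e (h.cm a)
      rw [cm_spec, mul_one] at e'
      simpa using e')

theorem bialg_comul : letI := h.bialg
    Bialgebra.comulAlgHom 𝕜 A = h.cm := rfl

theorem bialg_counit : letI := h.bialg
    Bialgebra.counitAlgHom 𝕜 A = ev 1 := rfl

theorem ap_left (x : G) (a : A) : ev x (Algebra.TensorProduct.lift h.ap (.id 𝕜 A)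
    (fun _ _ => Commute.all _ _) (h.cm a)) = ev 1 a := by
  have e : (ev x).comp (Algebra.TensorProduct.lift h.ap (.id 𝕜 A)
      fun _ _ => Commute.all _ _) = pr (ev x⁻¹) (ev x) := by
    apply Algebra.TensorProduct.ext'
    intro b c
    rw [AlgHom.comp_apply, Algebra.TensorProduct.lift_tmul, map_mul, ap_spec, pr_tmul,
      AlgHom.id_apply]
  have e' := DFunLike.congr_fun e (h.cm a)
  rw [cm_spec, inv_mul_cancel] at e'
  exact e'

theorem ap_right (x : G) (a : A) : ev x (Algebra.TensorProduct.lift (.id 𝕜 A) h.ap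
    (fun _ _ => Commute.all _ _) (h.cm a)) = ev 1 a := by
  have e : (ev x).comp (Algebra.TensorProduct.lift (.id 𝕜 A) h.ap
      fun _ _ => Commute.all _ _) = pr (ev x) (ev x⁻¹) := by
    apply Algebra.TensorProduct.ext'
    intro b c
    rw [AlgHom.comp_apply, Algebra.TensorProduct.lift_tmul, map_mul, ap_spec, pr_tmul,
      AlgHom.id_apply]
  have e' := DFunLike.congr_fun e (h.cm a)
  rw [cm_spec, mul_inv_cancel] at e'
  exact e'

/-- the Hopf algebra structure -/
@[reducible] noncomputable def hopf : HopfAlgebra 𝕜 A :=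
  letI := h.bialg
  HopfAlgebra.ofAlgHom h.ap
    (by
      apply AlgHom.ext
      intro a
      apply h.ext1
      intro x
      rw [AlgHom.comp_apply, AlgHom.comp_apply, Algebra.ofId_apply, AlgHom.commutes]
      exact h.ap_left x a)
    (by
      apply AlgHom.ext
      intro a
      apply h.ext1
      intro x
      rw [AlgHom.comp_apply, AlgHom.comp_apply, Algebra.ofId_apply, AlgHom.commutes]
      exact h.ap_right x a)

end IsFH

end FH

end Pool.Agent.H828.PA
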