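import Pool.Agent.H828.PA.Main

set_option autoImplicit false

/-! # The proalgebraic completion as a functor of the profinite completion -/

namespace Pool.Agent.H828.PA

open scoped TensorProduct

/-- A pro-affine algebraic group over `𝕜`, given by its coordinate ring `O`. -/
structure ProAlgGroup (𝕜 : Type) [Field 𝕜] where
  O : Type
  ring : CommRing O
  hopf : HopfAlgebra 𝕜 O

attribute [instance] ProAlgGroup.ring ProAlgGroup.hopf

/-- The group of `𝕜`-points of a proalgebraic group. -/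
def Points {𝕜 : Type} [Field 𝕜] (A : ProAlgGroup 𝕜) : Type := Pt 𝕜 A.O

/-- The map `ρ` is a homomorphism to the group of points. -/
def IsPointHom {𝕜 : Type} [Field 𝕜] {Γ : Type} [Group Γ] (A : ProAlgGroup 𝕜)
    (ρ : Γ → Points A) : Prop :=
  @IsPtHom 𝕜 _ A.O _ _ Γ _ ρ

/-- A morphism `A → B` of proalgebraic groups: a bialgebra homomorphism `O(B) → O(A)`. -/
def Mor {𝕜 : Type} [Field 𝕜] (A B : ProAlgGroup 𝕜) : Type := B.O →ₐc[𝕜] A.O

/-- The identity morphism. -/
def Mor.id {𝕜 : Type} [Field 𝕜] (A : ProAlgGroup 𝕜) : Mor A A := BialgHom.id 𝕜 A.O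

/-- The composition of the morphisms `f : A → B` and `g : B → C`. -/
def Mor.comp {𝕜 : Type} [Field 𝕜] {A B C : ProAlgGroup 𝕜} (g : Mor B C) (f : Mor A B) :
    Mor A C :=
  BialgHom.comp f g

/-- The effect of a morphism on points. -/
def Mor.onPt {𝕜 : Type} [Field 𝕜] {A B : ProAlgGroup 𝕜} (f : Mor A B) (x : Points A) :
    Points B :=
  AlgHom.comp x (BialgHom.toAlgHom f)

/-- The proalgebraic group `A` together with `i : Γ → A(𝕜)` is the proalgebraic completion. -/
def IsCompletion {𝕜 : Type} [Field 𝕜] (Γ : Type) [Group Γ] (A : ProAlgGroup 𝕜)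
    (i : Γ → Points A) : Prop :=
  IsProalgebraicCompletion Γ A.O i

/-- The profinite completion of `Γ`, as a type. -/
def PC (Γ : Type) [Group Γ] : Type := Prof Γ

noncomputable instance instGroupPC (Γ : Type) [Group Γ] : Group (PC Γ) :=
  (Prof Γ).group

noncomputable instance instTopPC (Γ : Type) [Group Γ] : TopologicalSpace (PC Γ) :=
  (Prof Γ).toProfinite.toTop.str

/-- The canonical map to the profinite completion. -/
noncomputable def eta (Γ : Type) [Group Γ] (γ : Γ) : PC Γ :=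
  (ProfiniteGrp.ProfiniteCompletion.eta (GrpCat.of Γ)).hom γ

/-- The continuous homomorphisms between the profinite completions of `Γ` and `Λ`. -/
def CHom (Γ Λ : Type) [Group Γ] [Group Λ] : Type := PC Γ →ₜ* PC Λ

/-- The identity of the profinite completion. -/
noncomputable def CHom.id (Γ : Type) [Group Γ] : CHom Γ Γ := ContinuousMonoidHom.id (PC Γ)

/-- Composition. -/
noncomputable def CHom.comp {Γ Λ Δ : Type} [Group Γ] [Group Λ] [Group Δ] (ψ : CHom Λ Δ)
    (φ : CHom Γ Λ) : CHom Γ Δ :=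
  ContinuousMonoidHom.comp ψ φ

/-- Value at a point. -/
noncomputable def CHom.app {Γ Λ : Type} [Group Γ] [Group Λ] (φ : CHom Γ Λ) (x : PC Γ) : PC Λ :=
  φ.toFun x

/-- A factorization of the proalgebraic completion through the profinite completion: for every
group `Γ` a proalgebraic group `A Γ` over `𝕜`, for every continuous homomorphism between the
profinite completions of `Γ` and `Λ` a morphism `A Γ → A Λ` of proalgebraic groups, functorially,
and an injective homomorphism `pt` of the profinite completion of `Γ` to the group of `𝕜`-points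
of `A Γ`, natural in `Γ`, such that, if `Γ` is finitely generated, `A Γ` together with the
restriction of `pt` to `Γ` is the proalgebraic completion of `Γ`. -/
structure ProfiniteFactorization (𝕜 : Type) [Field 𝕜] where
  A : (Γ : Type) → [Group Γ] → ProAlgGroup 𝕜
  pt : (Γ : Type) → [Group Γ] → PC Γ → Points (A Γ)
  map : (Γ Λ : Type) → [Group Γ] → [Group Λ] → CHom Γ Λ → Mor (A Γ) (A Λ)
  pt_hom : ∀ (Γ : Type) [Group Γ], IsPointHom (A Γ) (pt Γ)
  pt_injective : ∀ (Γ : Type) [Group Γ], Function.Injective (pt Γ)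
  completion : ∀ (Γ : Type) [Group Γ] [Group.FG Γ],
    IsCompletion Γ (A Γ) (fun γ => pt Γ (eta Γ γ))
  map_id : ∀ (Γ : Type) [Group Γ], map Γ Γ (CHom.id Γ) = Mor.id (A Γ)
  map_comp : ∀ (Γ Λ Δ : Type) [Group Γ] [Group Λ] [Group Δ] (φ : CHom Γ Λ) (ψ : CHom Λ Δ),
    map Γ Δ (CHom.comp ψ φ) = Mor.comp (map Λ Δ ψ) (map Γ Λ φ)
  natural : ∀ (Γ Λ : Type) [Group Γ] [Group Λ] (φ : CHom Γ Λ) (x : PC Γ),
    Mor.onPt (map Γ Λ φ) (pt Γ x) = pt Λ (φ.app x)

variable {𝕜 : Type} [Field 𝕜]

section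

variable (u : UP 𝕜) {G G' : Type} [Group G] [TopologicalSpace G] [Group G'] [TopologicalSpace G']

theorem isCoef_comp (φ : G →* G') (hφ : Continuous φ) (g : G' → 𝕜) (hg : IsCoef u g) :
    IsCoef u (g ∘ φ) := by
  obtain ⟨ι, hι, hd, M, a, b, hM, h⟩ := hg
  exact ⟨ι, hι, hd, fun p => (M p).comp φ, a, b, fun p => (hM p).comp_continuous hφ,
    fun x => h (φ x)⟩

/-- pullback of coefficient functions -/
noncomputable def pull (φ : G →* G') (hφ : Continuous φ) : CA u G' →ₐ[𝕜] CA u G where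
  toFun a := ⟨(a : G' → 𝕜) ∘ φ, isCoef_comp u φ hφ _ a.2⟩
  map_one' := rfl
  map_mul' _ _ := rfl
  map_zero' := rfl
  map_add' _ _ := rfl
  commutes' _ := rfl

theorem cev_pull (φ : G →* G') (hφ : Continuous φ) (x : G) :
    (cev u G x).comp (pull u φ hφ) = cev u G' (φ x) := rfl

theorem isCoef_sep (Q : Type) [Group Q] [Finite Q] (r : G →* Q) (hr : IsLocallyConstant r)
    (a : Q) : ∃ g : G → 𝕜, IsCoef u g ∧ (∀ x, r x = a → g x = 1) ∧ (∀ x, r x ≠ a → g x = 0) := by
  classical
  have := Fintype.ofFinite Q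
  let P : ∀ p : u.I, Q → Matrix Q Q (FF (u.q p)) := fun p g =>
    Matrix.of fun c b => if c = g * b then 1 else 0
  let M : ∀ p : u.I, G →* Matrix Q Q (FF (u.q p)) := fun p =>
    { toFun := fun x => P p (r x)
      map_one' := by
        ext c b
        show (if c = r 1 * b then (1 : FF (u.q p)) else 0) = (1 : Matrix Q Q (FF (u.q p))) c b
        rw [map_one, one_mul, Matrix.one_apply]
      map_mul' := by
        intro x y
        ext c b
        show (if c = r (x * y) * b then (1 : FF (u.q p)) else 0) =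
          ∑ k, (if c = r x * k then (1 : FF (u.q p)) else 0) * (if k = r y * b then 1 else 0)
        rw [Finset.sum_eq_single (r y * b)]
        · rw [map_mul, mul_assoc]
          simp
        · intro k _ hk
          rw [if_neg hk, mul_zero]
        · intro h
          exact absurd (Finset.mem_univ _) h }
  have hval : ∀ (p : u.I) (x : G), dotProduct (Pi.single a (1 : FF (u.q p)))
      ((M p x).mulVec (Pi.single 1 1)) = if r x = a then 1 else 0 := by
    intro p x
    rw [single_dotProduct, Matrix.mulVec_single_one, one_mul]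
    show (if a = r x * 1 then (1 : FF (u.q p)) else 0) = _
    rw [mul_one]
    exact if_congr eq_comm rfl rfl
  refine ⟨fun x => u.π (fun p => dotProduct (Pi.single a (1 : FF (u.q p)))
      ((M p x).mulVec (Pi.single 1 1))),
    ⟨Q, inferInstance, inferInstance, M, fun p => Pi.single a 1, fun p => Pi.single 1 1,
      fun p => hr.comp (P p), fun x => rfl⟩, ?_, ?_⟩
  · intro x hx
    have h1 : (fun p => dotProduct (Pi.single a (1 : FF (u.q p)))
      ((M p x).mulVec (Pi.single 1 1))) = (1 : ∀ i : u.I, FF (u.q i)) := by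
      funext p
      rw [hval, if_pos hx]
      rfl
    show u.π _ = 1
    rw [h1, map_one]
  · intro x hx
    have h1 : (fun p => dotProduct (Pi.single a (1 : FF (u.q p)))
      ((M p x).mulVec (Pi.single 1 1))) = (0 : ∀ i : u.I, FF (u.q i)) := by
      funext p
      rw [hval, if_neg hx]
      rfl
    show u.π _ = 0
    rw [h1, map_zero]

end

theorem isPtHom_ev {G A : Type} [Group G] [CommRing A] [Algebra 𝕜 A] {ev : G → A →ₐ[𝕜] 𝕜}
    (h : IsFH ev) : @IsPtHom 𝕜 _ A _ h.hopf G _ ev := by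
  let _ := h.hopf
  refine ⟨rfl, ?_⟩
  intro g k
  apply AlgHom.ext
  intro a
  rw [ptMul_eq]
  change ev (g * k) a = pr (ev g) (ev k) (h.cm a)
  rw [h.cm_spec]

/-- The proalgebraic group of a profinite completion. -/
noncomputable def AG (u : UP 𝕜) (Γ : Type) [Group Γ] : ProAlgGroup 𝕜 :=
  ⟨CA u (Prof Γ), inferInstance, (cfh u (Prof Γ)).hopf⟩

theorem pull_counit (u : UP 𝕜) (Γ Λ : Type) [Group Γ] [Group Λ] (φ : Prof Γ →ₜ* Prof Λ) :
    (Bialgebra.counitAlgHom 𝕜 (AG u Γ).O).comp
      (pull u φ.toMonoidHom φ.continuous_toFun : (AG u Λ).O →ₐ[𝕜] (AG u Γ).O) =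
      Bialgebra.counitAlgHom 𝕜 (AG u Λ).O := by
  apply AlgHom.ext
  intro k
  change cev u (Prof Γ) 1 (pull u φ.toMonoidHom φ.continuous_toFun k) = cev u (Prof Λ) 1 k
  change cev u (Prof Λ) (φ.toMonoidHom 1) k = cev u (Prof Λ) 1 k
  rw [map_one]

theorem pull_comul (u : UP 𝕜) (Γ Λ : Type) [Group Γ] [Group Λ] (φ : Prof Γ →ₜ* Prof Λ) :
    (Algebra.TensorProduct.map
      (pull u φ.toMonoidHom φ.continuous_toFun : (AG u Λ).O →ₐ[𝕜] (AG u Γ).O)
      (pull u φ.toMonoidHom φ.continuous_toFun : (AG u Λ).O →ₐ[𝕜] (AG u Γ).O)).comp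
      (Bialgebra.comulAlgHom 𝕜 (AG u Λ).O) =
      (Bialgebra.comulAlgHom 𝕜 (AG u Γ).O).comp
        (pull u φ.toMonoidHom φ.continuous_toFun : (AG u Λ).O →ₐ[𝕜] (AG u Γ).O) := by
  apply AlgHom.ext
  intro k
  apply (cfh u (Prof Γ)).ext2
  intro x y
  change pr (cev u (Prof Γ) x) (cev u (Prof Γ) y)
    (Algebra.TensorProduct.map (pull u φ.toMonoidHom φ.continuous_toFun)
      (pull u φ.toMonoidHom φ.continuous_toFun) ((cfh u (Prof Λ)).cm k)) =
    pr (cev u (Prof Γ) x) (cev u (Prof Γ) y)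
      ((cfh u (Prof Γ)).cm (pull u φ.toMonoidHom φ.continuous_toFun k))
  rw [(cfh u (Prof Γ)).cm_spec, pr_map, cev_pull, cev_pull]
  refine ((cfh u (Prof Λ)).cm_spec k (φ.toMonoidHom x) (φ.toMonoidHom y)).trans ?_
  rw [← map_mul]
  rfl

/-- The morphism of proalgebraic groups of a continuous homomorphism. -/
noncomputable def amap (u : UP 𝕜) (Γ Λ : Type) [Group Γ] [Group Λ] (φ : Prof Γ →ₜ* Prof Λ) :
    (AG u Λ).O →ₐc[𝕜] (AG u Γ).O :=
  BialgHom.ofAlgHom (pull u φ.toMonoidHom φ.continuous_toFun) (pull_counit u Γ Λ φ)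
    (pull_comul u Γ Λ φ)

theorem pt_inj (u : UP 𝕜) (Γ : Type) [Group Γ] : Function.Injective (cev u (Prof Γ)) := by
  intro x y hxy
  apply Subtype.ext
  funext H
  by_contra hne
  have hfin : Finite (Γ ⧸ H.toSubgroup) := by
    have := H.isFiniteIndex'
    exact Subgroup.finite_quotient_of_finiteIndex
  obtain ⟨g, hg, h1, h2⟩ := isCoef_sep u (Γ ⧸ H.toSubgroup) (qproj Γ H) (qproj_lc Γ H)
    (qproj Γ H x)
  have h3 := DFunLike.congr_fun hxy (⟨g, hg⟩ : CA u (Prof Γ))
  have h4 : g x = g y := h3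
  rw [h1 x rfl, h2 y (fun h => hne h.symm)] at h4
  exact one_ne_zero h4

/-- The proalgebraic completion factors through the profinite completion. -/
noncomputable def factorization (u : UP 𝕜) : ProfiniteFactorization 𝕜 where
  A Γ _ := AG u Γ
  pt Γ _ := cev u (Prof Γ)
  map Γ Λ _ _ φ := amap u Γ Λ φ
  pt_hom Γ _ := isPtHom_ev (cfh u (Prof Γ))
  pt_injective Γ _ := pt_inj u Γ
  completion Γ _ _ := cpc u (Prof Γ) _ (profMap_eta Γ)
  map_id Γ _ := by
    apply BialgHom.ext
    intro k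
    rfl
  map_comp Γ Λ Δ _ _ _ φ ψ := by
    apply BialgHom.ext
    intro k
    rfl
  natural Γ Λ _ _ φ x := by
    apply AlgHom.ext
    intro k
    rfl

end Pool.Agent.H828.PA
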