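import Pool.Agent.H828.PA.Base

set_option autoImplicit false

/-! # Algebraically closed fields of cardinality `2 ^ κ` are ultraproducts of fields `FF p` -/

namespace Pool.Agent.H828.PA

open Cardinal

section ultra

variable {I : Type} (q : I → Nat.Primes) (U : Ultrafilter I)

/-- the product of the fields `FF (q i)` -/
abbrev RR : Type := ∀ i : I, FF (q i)

/-- sequences that vanish almost everywhere -/
def nullIdeal : Ideal (RR q) where
  carrier := {x | ∀ᶠ p in (U : Filter I), x p = 0}
  add_mem' := by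
    intro a b ha hb
    filter_upwards [ha, hb] with p h1 h2
    simp [h1, h2]
  zero_mem' := by simp
  smul_mem' := by
    intro c x hx
    filter_upwards [hx] with p h1
    simp [h1]

theorem up_max : (nullIdeal q U).IsMaximal := by
  rw [Ideal.isMaximal_iff]
  constructor
  · intro h
    have h1 : ∀ᶠ p in (U : Filter I), (1 : RR q) p = 0 := h
    obtain ⟨p, hp⟩ := h1.exists
    exact one_ne_zero hp
  · intro J x hIJ hx hxJ
    have hx' : ¬ ∀ᶠ p in (U : Filter I), x p = 0 := hx
    have h1 : ∀ᶠ p in (U : Filter I), x p ≠ 0 := Ultrafilter.eventually_not.2 hx'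
    have h2 : (1 : RR q) - (fun p => (x p)⁻¹) * x ∈ nullIdeal q U := by
      show ∀ᶠ p in (U : Filter I), ((1 : RR q) - (fun p => (x p)⁻¹) * x) p = 0
      filter_upwards [h1] with p hp
      show (1 : FF (q p)) - (x p)⁻¹ * x p = 0
      rw [inv_mul_cancel₀ hp, sub_self]
    have h3 : (1 : RR q) = ((1 : RR q) - (fun p => (x p)⁻¹) * x) + (fun p => (x p)⁻¹) * x := by
      rw [sub_add_cancel]
    rw [h3]
    exact J.add_mem (hIJ h2) (J.mul_mem_left _ hxJ)

theorem exists_field :
    ∃ (K : Type) (_ : Field K) (π : RR q →+* K), Function.Surjective π ∧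
      ∀ x y : RR q, π x = π y ↔ ∀ᶠ p in (U : Filter I), x p = y p := by
  have := up_max q U
  refine ⟨RR q ⧸ nullIdeal q U, Ideal.Quotient.field (nullIdeal q U),
    Ideal.Quotient.mk (nullIdeal q U), Ideal.Quotient.mk_surjective, ?_⟩
  intro x y
  rw [Ideal.Quotient.eq]
  show (∀ᶠ p in (U : Filter I), (x - y) p = 0) ↔ _
  constructor
  · intro h
    filter_upwards [h] with p hp
    exact sub_eq_zero.1 hp
  · intro h
    filter_upwards [h] with p hp
    exact sub_eq_zero.2 hp

theorem zz_root {F : Type*} [Field F] [IsAlgClosed F] (n : ℕ) (hn : n ≠ 0) (c : ℕ → F) :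
    ∃ z : F, z ^ n + ∑ i ∈ Finset.range n, c i * z ^ i = 0 := by
  have hdeg : (∑ i ∈ Finset.range n, Polynomial.C (c i) * Polynomial.X ^ i :
      Polynomial F).degree < n := by
    rw [Polynomial.degree_lt_iff_coeff_zero]
    intro m hm
    rw [Polynomial.finsetSum_coeff]
    refine Finset.sum_eq_zero fun i hi => ?_
    rw [Polynomial.coeff_C_mul_X_pow, if_neg]
    have := Finset.mem_range.1 hi
    omega
  have hd : (Polynomial.X ^ n + ∑ i ∈ Finset.range n, Polynomial.C (c i) * Polynomial.X ^ i :
      Polynomial F).degree = n := by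
    rw [Polynomial.degree_add_eq_left_of_degree_lt (by rwa [Polynomial.degree_X_pow]),
      Polynomial.degree_X_pow]
  obtain ⟨z, hz⟩ := IsAlgClosed.exists_root
    (Polynomial.X ^ n + ∑ i ∈ Finset.range n, Polynomial.C (c i) * Polynomial.X ^ i :
      Polynomial F) (by rw [hd]; exact_mod_cast hn)
  refine ⟨z, ?_⟩
  rw [Polynomial.IsRoot.def, Polynomial.eval_add, Polynomial.eval_pow, Polynomial.eval_X,
    Polynomial.eval_finsetSum] at hz
  simpa using hz

variable (K : Type) [Field K] (π : RR q →+* K)

theorem up_closed (hs : Function.Surjective π) : IsAlgClosed K := by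
  apply IsAlgClosed.of_exists_root
  intro f hf hirr
  have hn : f.natDegree ≠ 0 := hirr.natDegree_pos.ne'
  choose c hc using fun i => hs (f.coeff i)
  choose z hz using fun p : I => zz_root (F := FF (q p)) f.natDegree hn (fun i => c i p)
  have hzz : (z : RR q) ^ f.natDegree + ∑ i ∈ Finset.range f.natDegree, c i * (z : RR q) ^ i = 0 := by
    funext p
    rw [Pi.add_apply, Finset.sum_apply]
    exact hz p
  refine ⟨π z, ?_⟩
  rw [Polynomial.eval_eq_sum_range, Finset.sum_range_succ, hf.coeff_natDegree, one_mul]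
  have h1 := congrArg π hzz
  rw [map_add, map_sum, map_zero, map_pow] at h1
  rw [← h1, add_comm]
  congr 1
  refine Finset.sum_congr rfl fun i _ => ?_
  rw [map_mul, map_pow, hc]

variable (heq : ∀ x y : RR q, π x = π y ↔ ∀ᶠ p in (U : Filter I), x p = y p)

include heq

theorem up_charZero (hq : ∀ n : ℕ, ∀ᶠ i in (U : Filter I), n < (q i : ℕ)) : CharZero K := by
  refine charZero_of_inj_zero (fun n hn => ?_)
  by_contra hne
  have h1 : π (n : RR q) = π 0 := by
    rw [map_natCast, hn, map_zero]
  have h2 := (heq _ _).1 h1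
  have h3 : ∀ᶠ i in (U : Filter I), (q i : ℕ) ∣ n := by
    filter_upwards [h2] with i hp
    have : CharP (ZMod (q i : ℕ)) (q i : ℕ) := ZMod.charP _
    have : CharP (FF (q i)) (q i : ℕ) :=
      charP_of_injective_algebraMap (algebraMap (ZMod (q i : ℕ)) (FF (q i))).injective (q i : ℕ)
    rw [← CharP.cast_eq_zero_iff (FF (q i)) (q i : ℕ) n]
    simpa using hp
  obtain ⟨i, h4, h5⟩ := (h3.and (hq n)).exists
  exact absurd (Nat.le_of_dvd (Nat.pos_of_ne_zero hne) h4) (not_le.mpr h5)

end ultra

theorem up_charP {I : Type} (p : Nat.Primes) (K : Type) [Field K]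
    (π : RR (fun _ : I => p) →+* K) : CharP K (p : ℕ) := by
  let φ : ZMod (p : ℕ) →+* RR (fun _ : I => p) :=
    RingHom.pi fun _ => algebraMap (ZMod (p : ℕ)) (FF p)
  have : CharP (ZMod (p : ℕ)) (p : ℕ) := ZMod.charP _
  exact charP_of_injective_ringHom (π.comp φ).injective (p : ℕ)

theorem ff_countable (p : Nat.Primes) : Countable (FF p) := by
  have h := Algebra.IsAlgebraic.cardinalMk_le_max (ZMod (p : ℕ)) (FF p)
  have h2 : Cardinal.mk (ZMod (p : ℕ)) ≤ Cardinal.aleph0 := Cardinal.mk_le_aleph0_iff.2 inferInstance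
  exact Cardinal.mk_le_aleph0_iff.1 (h.trans (max_le h2 le_rfl))

theorem ff_infinite (p : Nat.Primes) : Infinite (FF p) := IsAlgClosed.instInfinite

/-- the cardinality of an ultraproduct over the finite subsets of an infinite set -/
theorem up_card (X : Type) [Infinite X] (q : Finset X → Nat.Primes) (U : Ultrafilter (Finset X))
    (hU : (U : Filter (Finset X)) ≤ Filter.atTop)
    (K : Type) [Field K] (π : RR q →+* K) (hs : Function.Surjective π)
    (heq : ∀ x y : RR q, π x = π y ↔ ∀ᶠ p in (U : Filter (Finset X)), x p = y p) :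
    #K = 2 ^ #X := by
  classical
  have hX : ℵ₀ ≤ #X := Cardinal.aleph0_le_mk X
  apply le_antisymm
  · have h1 : #K ≤ #(RR q) := Cardinal.mk_le_of_surjective hs
    refine h1.trans ?_
    have h2 : ∀ s : Finset X, ∃ e : FF (q s) → ℕ, Function.Injective e := fun s => by
      have := ff_countable (q s)
      exact exists_injective_nat (FF (q s))
    choose e he using h2
    have h3 : Function.Injective (fun (x : RR q) (s : Finset X) => e s (x s)) := by
      intro x y hxy
      funext s
      exact he s (congrFun hxy s)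
    have h4 : #(RR q) ≤ #(Finset X → ℕ) := Cardinal.mk_le_of_injective h3
    refine h4.trans (le_of_eq ?_)
    have h5 : #(Finset X → ℕ) = #ℕ ^ #(Finset X) := by simp
    rw [h5, Cardinal.mk_nat, Cardinal.mk_finset_of_infinite]
    exact Cardinal.power_eq_two_power hX (Cardinal.natCast_lt_aleph0 (n := 2)).le hX
  · have hemb : ∀ s : Finset X, ∃ e : Finset X → FF (q s),
        ∀ a b : Finset X, a ⊆ s → b ⊆ s → e a = e b → a = b := by
      intro s
      have := ff_infinite (q s)
      let E : {t // t ∈ s.powerset} ↪ FF (q s) :=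
        ((Fintype.equivFin {t // t ∈ s.powerset}).toEmbedding.trans Fin.valEmbedding).trans
          (Infinite.natEmbedding (FF (q s)))
      refine ⟨fun t => if h : t ∈ s.powerset then E ⟨t, h⟩ else 0, fun a b ha hb hab => ?_⟩
      have ha' : a ∈ s.powerset := Finset.mem_powerset.mpr ha
      have hb' : b ∈ s.powerset := Finset.mem_powerset.mpr hb
      simp only [ha', hb', dif_pos] at hab
      exact congrArg Subtype.val (E.injective hab)
    choose e he using hemb
    let F : Set X → K := fun A => π (fun s => e s (s.filter (· ∈ A)))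
    have hF : Function.Injective F := by
      intro A B hAB
      have h2 : ∀ᶠ s in (U : Filter (Finset X)),
          e s (s.filter (· ∈ A)) = e s (s.filter (· ∈ B)) := (heq _ _).1 hAB
      ext x
      have h3 : ∀ᶠ s in (U : Filter (Finset X)), ({x} : Finset X) ⊆ s :=
        hU (Filter.eventually_ge_atTop ({x} : Finset X))
      obtain ⟨s, hs1, hs2⟩ := (h2.and h3).exists
      have h4 := he s _ _ (Finset.filter_subset _ s) (Finset.filter_subset _ s) hs1
      have hxs : x ∈ s := hs2 (Finset.mem_singleton_self x)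
      have h5 : x ∈ s.filter (· ∈ A) ↔ x ∈ s.filter (· ∈ B) := by rw [h4]
      simpa [Finset.mem_filter, hxs] using h5
    have h7 := Cardinal.mk_le_of_injective hF
    rwa [Cardinal.mk_set] at h7

/-- Every algebraically closed field of cardinality `2 ^ κ`, `κ` infinite, is an ultraproduct. -/
theorem exists_up (𝕜 : Type) [Field 𝕜] [IsAlgClosed 𝕜] (X : Type) [Infinite X]
    (hcard : #𝕜 = 2 ^ #X) : Nonempty (UP 𝕜) := by
  classical
  have hX : ℵ₀ ≤ #X := Cardinal.aleph0_le_mk X
  obtain ⟨U, hU⟩ : ∃ U : Ultrafilter (Finset X), (U : Filter (Finset X)) ≤ Filter.atTop :=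
    ⟨Ultrafilter.of Filter.atTop, Ultrafilter.of_le _⟩
  have hlt : ℵ₀ < #𝕜 := by
    rw [hcard]
    exact hX.trans_lt (Cardinal.cantor _)
  -- the characteristic
  obtain ⟨p, hp⟩ := CharP.exists 𝕜
  have key : ∃ q : Finset X → Nat.Primes, ∀ (K : Type) [Field K] (π : RR q →+* K),
      (∀ x y : RR q, π x = π y ↔ ∀ᶠ i in (U : Filter (Finset X)), x i = y i) → CharP K p := by
    rcases CharP.char_is_prime_or_zero 𝕜 p with hpp | hp0
    · exact ⟨fun _ => ⟨p, hpp⟩, fun K _ π _ => up_charP ⟨p, hpp⟩ K π⟩
    · subst hp0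
      choose r hr1 hr2 using fun n : ℕ => Nat.exists_infinite_primes (n + 1)
      refine ⟨fun s => ⟨r s.card, hr2 s.card⟩, fun K _ π heq => ?_⟩
      have : CharZero K := up_charZero _ U K π heq (fun n => by
        obtain ⟨t, ht⟩ := Infinite.exists_subset_card_eq X n
        have h3 : ∀ᶠ s in (U : Filter (Finset X)), t ⊆ s := hU (Filter.eventually_ge_atTop t)
        filter_upwards [h3] with s hs
        have h4 := Finset.card_le_card hs
        have h5 := hr1 s.card
        show n < r s.card
        omega)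
      exact CharP.ofCharZero K
  obtain ⟨q, hq⟩ := key
  obtain ⟨K, hK, π, hs, heq⟩ := exists_field q U
  have : IsAlgClosed K := up_closed q K π hs
  have : CharP K p := hq K π heq
  have hc : #K = 2 ^ #X := up_card X q U hU K π hs heq
  have hKC : Nonempty (K ≃ 𝕜) := by
    rw [← Cardinal.eq, hc, hcard]
  have hlt' : ℵ₀ < #K := by rw [hc, ← hcard]; exact hlt
  obtain ⟨e⟩ := IsAlgClosed.ringEquiv_of_equiv_of_char_eq p hlt' hKC
  refine ⟨⟨Finset X, q, U, (e : K →+* 𝕜).comp π, ?_, ?_⟩⟩
  · intro x
    obtain ⟨y, hy⟩ := hs (e.symm x)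
    refine ⟨y, ?_⟩
    rw [RingHom.comp_apply, hy]
    simp
  · intro x y
    rw [← heq x y, RingHom.comp_apply, RingHom.comp_apply]
    exact e.injective.eq_iff

end Pool.Agent.H828.PA
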