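import Pool.Agent.H828.PA.Base



namespace Pool.Agent.H828.PA

open scoped TensorProduct

variable {𝕜 : Type} [Field 𝕜]

theorem tensor_sep {V W : Type} [AddCommGroup V] [Module 𝕜 V] [AddCommGroup W] [Module 𝕜 W]
    (S : Set (V →ₗ[𝕜] 𝕜)) (T : Set (W →ₗ[𝕜] 𝕜)) (hS : ∀ v, (∀ s ∈ S, s v = 0) → v = 0)
    (hT : ∀ w, (∀ t ∈ T, t w = 0) → w = 0) (z : V ⊗[𝕜] W)
    (h : ∀ s ∈ S, ∀ t ∈ T, TensorProduct.lid 𝕜 𝕜 (TensorProduct.map s t z) = 0) : z = 0 := by
  classical
  let B := Module.Basis.ofVectorSpace 𝕜 W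
  obtain ⟨c, rfl⟩ := (TensorProduct.equivFinsuppOfBasisRight (M := V) B).symm.surjective z
  have hz : (TensorProduct.equivFinsuppOfBasisRight (M := V) B).symm c
      = c.sum fun i m => m ⊗ₜ[𝕜] B i := TensorProduct.equivFinsuppOfBasisRight_symm_apply B c
  have key : ∀ s ∈ S, ∀ i, s (c i) = 0 := by
    intro s hs
    have hw : (∑ i ∈ c.support, s (c i) • B i) = 0 := by
      apply hT
      intro t ht
      have h1 := h s hs t ht
      rw [hz, Finsupp.sum, map_sum, map_sum] at h1
      rw [map_sum, ← h1]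
      refine Finset.sum_congr rfl fun i _ => ?_
      simp
    have hli := linearIndependent_iff'.mp B.linearIndependent c.support (fun i => s (c i)) hw
    intro i
    by_cases hi : i ∈ c.support
    · exact hli i hi
    · rw [Finsupp.notMem_support_iff.mp hi, map_zero]
  have hc : c = 0 := by
    ext i
    exact hS _ (fun s hs => key s hs i)
  rw [hc, map_zero]

end Pool.Agent.H828.PA
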