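import Pool.Agent.H828.PA.FH

/-! # The universal property -/

namespace Pool.Agent.H828.PA

open scoped TensorProduct

variable {𝕜 : Type} [Field 𝕜]

section

variable {G A : Type} [Group G] [CommRing A] [Algebra 𝕜 A] {ev : G → A →ₐ[𝕜] 𝕜}

theorem ptMul_eq {K : Type} [CommRing K] [HopfAlgebra 𝕜 K] (x y : Pt 𝕜 K) (k : K) :
    ptMul x y k = pr x y (Coalgebra.comul (R := 𝕜) k) := rfl

theorem exists_sum {K : Type} [CommRing K] [Algebra 𝕜 K] (z : K ⊗[𝕜] K) :
    ∃ (n : ℕ) (s t : Fin n → K), z = ∑ i, s i ⊗ₜ[𝕜] t i := by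
  induction z using TensorProduct.induction_on with
  | zero => exact ⟨0, 0, 0, by simp⟩
  | tmul a b => exact ⟨1, fun _ => a, fun _ => b, by simp⟩
  | add a b ha hb =>
    obtain ⟨n, s, t, rfl⟩ := ha
    obtain ⟨m, s', t', rfl⟩ := hb
    refine ⟨n + m, Fin.append s s', Fin.append t t', ?_⟩
    rw [Fin.sum_univ_add]
    simp

theorem pr_map {K A : Type} [CommRing K] [Algebra 𝕜 K] [CommRing A] [Algebra 𝕜 A]
    (Φ : K →ₐ[𝕜] A) (f g : A →ₐ[𝕜] 𝕜) (z : K ⊗[𝕜] K) :
    pr f g (Algebra.TensorProduct.map Φ Φ z) = pr (f.comp Φ) (g.comp Φ) z := by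
  induction z using TensorProduct.induction_on with
  | zero => simp
  | tmul a b => simp
  | add a b ha hb => rw [map_add, map_add, ha, hb, map_add]

theorem isPC (h : IsFH ev) {Γ : Type} [Group Γ] (j : Γ →* G)
    (hu : ∀ a, (∀ γ, ev (j γ) a = 0) → a = 0)
    (he : ∀ (f : Γ → 𝕜) (n : ℕ) (s t : Fin n → Γ → 𝕜),
      (∀ γ δ, f (γ * δ) = ∑ i, s i γ * t i δ) → ∃ a, ∀ γ, ev (j γ) a = f γ) :
    @IsProalgebraicCompletion 𝕜 _ Γ _ A _ h.hopf (fun γ => ev (j γ)) := by
  letI := h.hopf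
  have hext : ∀ a b, (∀ γ, ev (j γ) a = ev (j γ) b) → a = b := by
    intro a b hab
    rw [← sub_eq_zero]
    apply hu
    intro γ
    rw [map_sub, hab, sub_self]
  refine ⟨⟨?_, ?_⟩, ?_⟩
  · change ev (j 1) = ev 1
    rw [map_one]
  · intro g k
    apply AlgHom.ext
    intro a
    rw [ptMul_eq]
    change ev (j (g * k)) a = pr (ev (j g)) (ev (j k)) (h.cm a)
    rw [h.cm_spec, map_mul]
  · intro K _ _ _ ρ hρ
    have hex : ∀ k : K, ∃ a : A, ∀ γ, ev (j γ) a = ρ γ k := by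
      intro k
      obtain ⟨n, s, t, hst⟩ : ∃ (n : ℕ) (s t : Fin n → K),
          Coalgebra.comul (R := 𝕜) k = ∑ i, s i ⊗ₜ[𝕜] t i := exists_sum _
      apply he (fun γ => ρ γ k) n (fun i γ => ρ γ (s i)) (fun i γ => ρ γ (t i))
      intro γ δ
      rw [hρ.2, ptMul_eq, hst, map_sum]
      simp
    choose φ hφ using hex
    let Φ : K →ₐ[𝕜] A :=
      { toFun := φ
        map_one' := hext _ _ fun γ => by rw [hφ, map_one, map_one]
        map_mul' := fun a b => hext _ _ fun γ => by rw [hφ, map_mul, map_mul, hφ, hφ]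
        map_zero' := hext _ _ fun γ => by rw [hφ, map_zero, map_zero]
        map_add' := fun a b => hext _ _ fun γ => by rw [hφ, map_add, map_add, hφ, hφ]
        commutes' := fun c => hext _ _ fun γ => by
          rw [hφ, AlgHom.commutes]
          exact ((ev (j γ)).commutes c).symm }
    have hΦ : ∀ γ k, ev (j γ) (Φ k) = ρ γ k := fun γ k => hφ k γ
    have h1 : (Bialgebra.counitAlgHom 𝕜 A).comp Φ = Bialgebra.counitAlgHom 𝕜 K := by
      apply AlgHom.ext
      intro k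
      change ev 1 (Φ k) = ptOne 𝕜 K k
      rw [← hρ.1, ← hΦ, map_one]
    have h2 : (Algebra.TensorProduct.map Φ Φ).comp (Bialgebra.comulAlgHom 𝕜 K) =
        (Bialgebra.comulAlgHom 𝕜 A).comp Φ := by
      apply AlgHom.ext
      intro k
      apply pr_ext (fun γ => ev (j γ)) (fun γ => ev (j γ)) hu hu
      intro γ δ
      change pr (ev (j γ)) (ev (j δ)) (Algebra.TensorProduct.map Φ Φ
        (Coalgebra.comul (R := 𝕜) k)) = pr (ev (j γ)) (ev (j δ)) (h.cm (Φ k))
      rw [h.cm_spec, ← map_mul, hΦ, hρ.2, ptMul_eq]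
      have e1 : (ev (j γ)).comp Φ = ρ γ := AlgHom.ext fun k => hΦ γ k
      have e2 : (ev (j δ)).comp Φ = ρ δ := AlgHom.ext fun k => hΦ δ k
      rw [← e1, ← e2]
      exact pr_map Φ (ev (j γ)) (ev (j δ)) _
    refine ⟨BialgHom.ofAlgHom Φ h1 h2, ?_, ?_⟩
    · intro g
      apply AlgHom.ext
      intro k
      exact hΦ g k
    · intro ψ hψ
      apply BialgHom.ext
      intro k
      apply hext
      intro γ
      have := DFunLike.congr_fun (hψ γ) k
      change ev (j γ) (ψ k) = ev (j γ) (Φ k)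
      rw [hΦ]
      exact this

end

end Pool.Agent.H828.PA
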